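import Pool.Agent.Zk74.KG.Alg

/-!
# Central idempotents of rational group rings
-/

set_option autoImplicit false

namespace Pool.Agent.Zk74.KC

open Finset Pool.Agent.X252.GA Pool.Agent.Zk74.KG

variable {G : Type} [Group G] [Fintype G]

lemma dag_sub (x y : MonoidAlgebra ℚ G) : dag (x - y) = dag x - dag y := by
  apply ext'
  intro g
  rw [coeff_dag]
  simp [coeff_dag]

lemma dag_one : dag (1 : MonoidAlgebra ℚ G) = 1 := by
  classical
  apply ext'
  intro g
  rw [coeff_dag, MonoidAlgebra.one_def, MonoidAlgebra.coeff_single, Finsupp.single_apply,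
    Finsupp.single_apply]
  have : (1 = g⁻¹) ↔ (1 = g) := by rw [eq_comm, inv_eq_one, eq_comm]
  simp only [this]

lemma eq_zero_of_sq (I : Ideal (MonoidAlgebra ℚ G)) {z : MonoidAlgebra ℚ G} (hz : z ∈ I)
    (h : ∀ w ∈ I, z * w = 0) : z = 0 := by
  have h1 : z * dag z * (z * dag z) = 0 := by
    have : z * (dag z * z) = 0 := h _ (I.mul_mem_left _ hz)
    calc z * dag z * (z * dag z) = z * (dag z * z) * dag z := by noncomm_ring
      _ = 0 := by rw [this, zero_mul]
  have h2 : dag (z * dag z) = z * dag z := by rw [dag_mul, dag_dag]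
  have h3 : z * dag z = 0 := eq_zero_of_dag (by rw [h2, h1])
  exact eq_zero_of_dag h3

/-- A two-sided ideal is generated by a central idempotent, which is invariant under `g ↦ g⁻¹`. -/
theorem exists_central (I : Ideal (MonoidAlgebra ℚ G)) (hI : ∀ x ∈ I, ∀ y, x * y ∈ I) :
    ∃ e ∈ I, IsIdempotentElem e ∧ (∀ x ∈ I, e * x = x) ∧ (∀ y, e * y = y * e) ∧ dag e = e := by
  obtain ⟨e, he, hi, hex⟩ := exists_idem I hI
  have hc : ∀ y, e * y = y * e := by
    intro y
    have h1 : e * y - e * y * e = 0 := by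
      refine eq_zero_of_sq I (I.sub_mem (hI e he y) (hI _ (hI e he y) e)) fun w hw => ?_
      rw [sub_mul, mul_assoc (e * y) e w, hex w hw, sub_self]
    have h2 : e * (y * e) = y * e := hex _ (I.mul_mem_left y he)
    rw [sub_eq_zero] at h1
    rw [h1, mul_assoc, h2]
  refine ⟨e, he, hi, hex, hc, ?_⟩
  have hd : dag e * dag e = dag e := by rw [← dag_mul, hi.eq]
  have h3 : e - e * dag e = 0 := by
    refine eq_zero_of_dag ?_
    rw [dag_sub, dag_mul, dag_dag]
    have e1 : e * dag e * (e * dag e) = e * dag e := by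
      calc e * dag e * (e * dag e) = e * (dag e * e) * dag e := by noncomm_ring
        _ = e * (e * dag e) * dag e := by rw [← hc (dag e)]
        _ = (e * e) * (dag e * dag e) := by noncomm_ring
        _ = e * dag e := by rw [hi.eq, hd]
    have e2 : e * (e * dag e) = e * dag e := by rw [← mul_assoc, hi.eq]
    have e3 : e * dag e * dag e = e * dag e := by rw [mul_assoc, hd]
    rw [sub_mul, mul_sub, mul_sub, e1, e2, e3, sub_self]
  rw [sub_eq_zero] at h3
  have h4 : dag e = e * dag e := by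
    conv_lhs => rw [h3]
    rw [dag_mul, dag_dag]
  rw [h4, ← h3]

/-- A two-sided ideal is invariant under `g ↦ g⁻¹`. -/
theorem dag_mem (I : Ideal (MonoidAlgebra ℚ G)) (hI : ∀ x ∈ I, ∀ y, x * y ∈ I)
    {x : MonoidAlgebra ℚ G} (hx : x ∈ I) : dag x ∈ I := by
  obtain ⟨e, he, hi, hex, hc, hd⟩ := exists_central I hI
  rw [← hex x hx, dag_mul, hd]
  exact I.mul_mem_left _ he

end Pool.Agent.Zk74.KC
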