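import Pool.Agent.Zk74.KG.Defs

/-!
# Künneth components and finite group actions: definitions
-/

set_option autoImplicit false

open CategoryTheory Limits MonoidalCategory Functor.LaxMonoidal
open Pool.Agent.Y112.SR

namespace Pool.Agent.Zk74.KC

universe v u w

variable {C : Type u} [Category.{v} C] [Preadditive C] [MonoidalCategory C] [SymmetricCategory C]
  {K : Type w} [Field K]

/-- A grading of the realisation, `H(X) = ⨁ H^n(X)`, given by the projectors `P n X` onto the
`H^n(X)`. It is natural, `H^i(X) ⊗ H^j(Y)` is contained in `H^(i+j)(X ⊗ Y)`, and the parity is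
`(-1)^n` on `H^n(X)`. -/
structure Grading (R : SuperRealisation C K) where
  /-- the projector onto the degree `n` -/
  P (n : ℤ) (X : C) : R.H.obj X ⟶ R.H.obj X
  natural (n : ℤ) {X Y : C} (f : X ⟶ Y) : R.H.map f ≫ P n Y = P n X ≫ R.H.map f
  idem (n : ℤ) (X : C) : P n X ≫ P n X = P n X
  orth {m n : ℤ} (h : m ≠ n) (X : C) : P m X ≫ P n X = 0
  total (X : C) : ∃ S : Finset ℤ, ∑ n ∈ S, P n X = 𝟙 _
  parity (n : ℤ) (X : C) : P n X ≫ R.par X = (n.negOnePow : ℤ) • P n X
  tensor (i j : ℤ) (X Y : C) :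
    (P i X ⊗ₘ P j Y) ≫ μ R.H X Y ≫ P (i + j) (X ⊗ Y) = (P i X ⊗ₘ P j Y) ≫ μ R.H X Y

variable {R : SuperRealisation C K} (Gr : Grading R)

/-- The `n`-th Künneth component of `M` is algebraic: the projector onto `H^n(M)` is the realisation
of an endomorphism of `M`. -/
def Kun (n : ℤ) (M : C) : Prop := ∃ f : M ⟶ M, R.H.map f = Gr.P n M

/-- The rational representation `ρ` of `G` occurs in `H^n(M)` for some `n` in the set `S`: there is a
nonzero equivariant homomorphism. -/
def Occurs {G : Type} [Group G] {M : C} (a : G →* End M) (S : Set ℤ) {V : Type} [AddCommGroup V]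
    [Module ℚ V] (ρ : G →* Module.End ℚ V) : Prop :=
  ∃ n ∈ S, ∃ f : V →+ R.H.obj M, (∀ v, (Gr.P n M).hom (f v) = f v) ∧
    (∀ g v, f (ρ g v) = (R.H.map (a g : M ⟶ M)).hom (f v)) ∧ ∃ v, f v ≠ 0

/-- The `n`-th Künneth component of the quotient of `M` by the subgroup `H` is algebraic. -/
def QKun [Linear ℚ C] {G : Type} [Group G] [Fintype G] {M : C} (a : G →* End M) (H : Subgroup G)
    (n : ℤ) : Prop :=
  ∃ T : C, Pool.Agent.Zk74.KG.IsQuot a H T ∧ Kun Gr n T

/-- The part of the `i`-th Künneth component of `M` which belongs to the representations which occur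
in `H^j(N)` is algebraic. -/
def PartAlg [Linear ℚ C] {G : Type} [Group G] [Fintype G] {M N : C} (a : G →* End M)
    (b : G →* End N) (i j : ℤ) : Prop :=
  ∃ c : G → ℚ, Gr.P j N ≫ R.H.map (∑ g, c g • (b g : N ⟶ N)) = Gr.P j N ∧
    ∃ f : M ⟶ M, R.H.map f = Gr.P i M ≫ R.H.map (∑ g, c g • (a g : M ⟶ M))

end Pool.Agent.Zk74.KC
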