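import Pool.Agent.Zk74.KC.Ideal

/-!
# Künneth components of isotrivial products
-/

set_option autoImplicit false
set_option linter.unusedSectionVars false
set_option backward.isDefEq.respectTransparency false
set_option backward.defeqAttrib.useBackward true

open CategoryTheory Limits MonoidalCategory
open Pool.Agent.Y112.SR Pool.Agent.Y112.KD
open Pool.Agent.X252.GA Pool.Agent.Zk74.KG
open Functor.LaxMonoidal Functor.OplaxMonoidal

namespace Pool.Agent.Zk74.KC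

universe v u w

variable {C : Type u} [Category.{v} C] [Preadditive C] [Linear ℚ C] [MonoidalCategory C]
  [MonoidalPreadditive C] [MonoidalLinear ℚ C] [SymmetricCategory C] [RightRigidCategory C]
  [IsIdempotentComplete C] [HasBinaryBiproducts C] {K : Type w} [Field K]
  {R : SuperRealisation C K} (Gr : Grading R) {G : Type} [Group G] [Fintype G]

variable (R) in
/-- The partial trace of a tensor product. -/
lemma pt_tensor {M N : C} (A : R.H.obj M ⟶ R.H.obj M) (B : R.H.obj N ⟶ R.H.obj N) :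
    pt R (A ⊗ₘ B) = LinearMap.trace K (R.H.obj N) (B ≫ R.par N).hom • A := by
  have hc := R_charZero R
  have hf := R.finite N
  have h1 := Pool.Agent.Y116.MT.vec_trace (coe R N) (evb R N) (zigzag R N) (B ≫ R.par N)
  have h3 : coe R N ≫ B ▷ R.H.obj Nᘁ ≫ eva R N =
      (LinearMap.trace K (R.H.obj N) (B ≫ R.par N).hom) • 𝟙 _ := by
    rw [eva_eq R two_ne_zero, ← h1, ← unit_hom]
    simp only [comp_whiskerRight, Category.assoc]
  unfold pt
  have h4 : (A ⊗ₘ B) ▷ R.H.obj Nᘁ ≫ (α_ _ _ _).hom =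
      (α_ _ _ _).hom ≫ A ▷ (R.H.obj N ⊗ R.H.obj Nᘁ) ≫ R.H.obj M ◁ (B ▷ R.H.obj Nᘁ) := by
    rw [MonoidalCategory.tensorHom_def]
    simp
  rw [reassoc_of% h4]
  simp only [Iso.inv_hom_id_assoc]
  rw [whisker_exchange_assoc, ← rightUnitor_inv_naturality_assoc]
  rw [← MonoidalCategory.whiskerLeft_comp_assoc, ← MonoidalCategory.whiskerLeft_comp_assoc,
    Category.assoc, h3]
  simp

variable (R) in
lemma pt_sum {M N : C} {ι : Type} (s : Finset ι)
    (x : ι → (R.H.obj M ⊗ R.H.obj N ⟶ R.H.obj M ⊗ R.H.obj N)) :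
    pt R (∑ k ∈ s, x k) = ∑ k ∈ s, pt R (x k) := by
  simp only [pt, Preadditive.sum_comp, Preadditive.comp_sum, CategoryTheory.sum_whiskerRight]

lemma tens {M N : C} (d j : ℤ) :
    (𝟙 (R.H.obj M) ⊗ₘ Gr.P j N) ≫ μ R.H M N ≫ Gr.P (d + j) (M ⊗ N) =
      (Gr.P d M ⊗ₘ Gr.P j N) ≫ μ R.H M N := by
  classical
  obtain ⟨S, hS⟩ := Gr.total M
  have h1 : ∀ n ∈ S, (Gr.P n M ⊗ₘ Gr.P j N) ≫ μ R.H M N ≫ Gr.P (d + j) (M ⊗ N) =
      if n = d then (Gr.P d M ⊗ₘ Gr.P j N) ≫ μ R.H M N else 0 := by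
    intro n _
    by_cases h : n = d
    · rw [if_pos h, h, Gr.tensor]
    · rw [if_neg h]
      have h2 := congrArg (fun z => z ≫ Gr.P (d + j) (M ⊗ N)) (Gr.tensor n j M N)
      simp only [Category.assoc] at h2
      rw [← h2, Gr.orth (show n + j ≠ d + j by omega), comp_zero, comp_zero]
  have h3 : (𝟙 (R.H.obj M) ⊗ₘ Gr.P j N) = ∑ n ∈ S, (Gr.P n M ⊗ₘ Gr.P j N) := by
    rw [← hS, sum_tensor]
  rw [h3, Preadditive.sum_comp, Finset.sum_congr rfl h1, Finset.sum_ite_eq']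
  split_ifs with h
  · rfl
  · rw [total_of Gr M hS h, MonoidalCategory.tensorHom_def, MonoidalPreadditive.zero_whiskerRight,
      zero_comp, zero_comp]

/-- The tensor product of the action on `M` with a morphism of degree zero on `N`. -/
lemma mu_map {M N : C} (d j : ℤ) (α : M ⟶ M) (β : N ⟶ N) (hβ : R.H.map β ≫ Gr.P j N = R.H.map β) :
    μ R.H M N ≫ R.H.map (α ⊗ₘ β) ≫ Gr.P (d + j) (M ⊗ N) ≫ δ R.H M N =
      ((R.H.map α ≫ Gr.P d M) ⊗ₘ R.H.map β) := by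
  have h1 : μ R.H M N ≫ R.H.map (α ⊗ₘ β) = (R.H.map α ⊗ₘ R.H.map β) ≫ μ R.H M N :=
    (μ_natural R.H α β).symm
  rw [reassoc_of% h1]
  have h2 : (R.H.map α ⊗ₘ R.H.map β) = (R.H.map α ⊗ₘ R.H.map β) ≫ (𝟙 _ ⊗ₘ Gr.P j N) := by
    rw [tensorHom_comp_tensorHom, hβ, Category.comp_id]
  rw [h2, Category.assoc, ← Category.assoc (μ R.H M N), ← Category.assoc (𝟙 _ ⊗ₘ Gr.P j N),
    tens, Category.assoc, Functor.Monoidal.μ_δ, Category.comp_id, tensorHom_comp_tensorHom, hβ]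

/-- The partial traces. -/
theorem key (hU : UnitQ C) {M N T : C} (a : G →* End M) (b : G →* End N)
    (hT : IsQuot (diag a b) ⊤ T) {d j : ℤ} (h1 : Kun Gr (d + j) T) {f : N ⟶ N}
    (hf : R.H.map f = Gr.P j N) (y : N ⟶ N) : uel hU b (f ≫ y) ∈ jI Gr a d := by
  classical
  have hch := R_charZero R
  obtain ⟨i, r, h2, h3⟩ := hT
  obtain ⟨z, hz⟩ := h1
  refine ⟨ptr ((((Nat.card (⊤ : Subgroup G) : ℚ) • r) ≫ z ≫ i) ≫ M ◁ (f ≫ y)), ?_⟩
  have hβ : ∀ g, R.H.map ((b g : N ⟶ N) ≫ f ≫ y) ≫ Gr.P j N =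
      R.H.map ((b g : N ⟶ N) ≫ f ≫ y) := by
    intro g
    rw [R.H.map_comp, R.H.map_comp, hf, Category.assoc, Category.assoc, Gr.natural,
      ← Category.assoc (Gr.P j N), Gr.idem]
  have h4 : μ R.H M N ≫ R.H.map ((((Nat.card (⊤ : Subgroup G) : ℚ) • r) ≫ z ≫ i) ≫
      M ◁ (f ≫ y)) ≫ δ R.H M N =
      ∑ g, ((R.H.map (a g : M ⟶ M) ≫ Gr.P d M) ⊗ₘ R.H.map ((b g : N ⟶ N) ≫ f ≫ y)) := by
    have e1 : R.H.map ((((Nat.card (⊤ : Subgroup G) : ℚ) • r) ≫ z ≫ i) ≫ M ◁ (f ≫ y)) =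
        R.H.map (∑ g, ((a g : M ⟶ M) ⊗ₘ ((b g : N ⟶ N) ≫ f ≫ y))) ≫ Gr.P (d + j) (M ⊗ N) := by
      have e2 : (Nat.card (⊤ : Subgroup G) : ℚ) • avg (diag a b) ⊤ =
          ∑ g, ((a g : M ⟶ M) ⊗ₘ (b g : N ⟶ N)) := by
        unfold avg
        rw [smul_smul, mul_inv_cancel₀ (card_ne _), one_smul]
        refine Finset.sum_congr ?_ fun g _ => rfl
        ext g
        simp
      have e3 : ∑ g, ((a g : M ⟶ M) ⊗ₘ ((b g : N ⟶ N) ≫ f ≫ y)) =
          (((Nat.card (⊤ : Subgroup G) : ℚ) • r) ≫ i) ≫ M ◁ (f ≫ y) := by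
        rw [Linear.smul_comp, h3, e2, Preadditive.sum_comp]
        refine Finset.sum_congr rfl fun g _ => ?_
        rw [MonoidalCategory.tensorHom_def, MonoidalCategory.tensorHom_def,
          MonoidalCategory.whiskerLeft_comp, Category.assoc]
      rw [e3, R.H.map_comp, R.H.map_comp, R.H.map_comp, R.H.map_comp, hz, R.H.map_comp]
      simp only [Category.assoc]
      rw [Gr.natural, ← Category.assoc (R.H.map i), Gr.natural, Category.assoc]
    rw [e1, Category.assoc, R.H.map_sum, Preadditive.sum_comp, Preadditive.comp_sum]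
    exact Finset.sum_congr rfl fun g _ => mu_map Gr d j _ _ (hβ g)
  rw [map_ptr, h4, pt_sum]
  have h5 : (act a (uel hU b (f ≫ y)) : M ⟶ M) =
      ∑ g, trq hU N ((b g : N ⟶ N) ≫ f ≫ y : N ⟶ N) • (a g : M ⟶ M) := by
    unfold uel
    rw [act_sum]
  rw [h5, R.H.map_sum, Preadditive.comp_sum]
  refine Finset.sum_congr rfl fun g _ => ?_
  rw [pt_tensor, R_smul, Linear.comp_smul, ← Gr.natural, ← real_tr R hU]

end Pool.Agent.Zk74.KC
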