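import Pool.Agent.Zk74.KC.Defs
import Pool.Agent.Zk74.KG.Num
import Pool.Agent.X252.GB

/-!
# Künneth components and finite group actions: the ideal
-/

set_option autoImplicit false
set_option linter.unusedSectionVars false
set_option backward.isDefEq.respectTransparency false
set_option backward.defeqAttrib.useBackward true

open CategoryTheory Limits MonoidalCategory
open Pool.Agent.Y112.SR Pool.Agent.Y112.KD
open Pool.Agent.X252.GA Pool.Agent.Zk74.KG

namespace Pool.Agent.Zk74.KC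

universe v u w

variable {C : Type u} [Category.{v} C] [Preadditive C] [Linear ℚ C] [MonoidalCategory C]
  [MonoidalPreadditive C] [MonoidalLinear ℚ C] [SymmetricCategory C] [RightRigidCategory C]
  [IsIdempotentComplete C] [HasBinaryBiproducts C] {K : Type w} [Field K]
  {R : SuperRealisation C K} (Gr : Grading R) {G : Type} [Group G] [Fintype G]

lemma total_of (X : C) {S : Finset ℤ} (hS : ∑ n ∈ S, Gr.P n X = 𝟙 _) {n : ℤ} (hn : n ∉ S) :
    Gr.P n X = 0 := by
  calc Gr.P n X = (∑ m ∈ S, Gr.P m X) ≫ Gr.P n X := by rw [hS, Category.id_comp]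
    _ = ∑ m ∈ S, Gr.P m X ≫ Gr.P n X := Preadditive.sum_comp _ _ _
    _ = 0 := Finset.sum_eq_zero fun m hm => Gr.orth (fun h => hn (by rw [← h]; exact hm)) X

/-- The elements `x` of the group ring such that the product of `x` with the `n`-th Künneth
component is algebraic. -/
noncomputable def jI {M : C} (a : G →* End M) (n : ℤ) : Ideal (MonoidAlgebra ℚ G) where
  carrier := {x | ∃ f : M ⟶ M, R.H.map f = Gr.P n M ≫ R.H.map (act a x : M ⟶ M)}
  add_mem' := by
    rintro x y ⟨f, hf⟩ ⟨f', hf'⟩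
    refine ⟨f + f', ?_⟩
    rw [R.H.map_add, hf, hf', map_add]
    have : R.H.map ((act a x + act a y : End M) : M ⟶ M) =
        R.H.map (act a x : M ⟶ M) + R.H.map (act a y : M ⟶ M) := R.H.map_add
    rw [this, Preadditive.comp_add]
  zero_mem' := by
    refine ⟨0, ?_⟩
    rw [map_zero]
    have : R.H.map ((0 : End M) : M ⟶ M) = 0 := R.H.map_zero _ _
    rw [this, comp_zero]
  smul_mem' := by
    rintro x y ⟨f, hf⟩
    refine ⟨f ≫ (act a x : M ⟶ M), ?_⟩
    rw [smul_eq_mul, act_mul, R.H.map_comp, R.H.map_comp, hf, Category.assoc]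

lemma mem_jI {M : C} (a : G →* End M) (n : ℤ) (x : MonoidAlgebra ℚ G) :
    x ∈ jI Gr a n ↔ ∃ f : M ⟶ M, R.H.map f = Gr.P n M ≫ R.H.map (act a x : M ⟶ M) := Iff.rfl

lemma jI_right {M : C} (a : G →* End M) (n : ℤ) :
    ∀ x ∈ jI Gr a n, ∀ y, x * y ∈ jI Gr a n := by
  rintro x ⟨f, hf⟩ y
  refine ⟨(act a y : M ⟶ M) ≫ f, ?_⟩
  rw [act_mul, R.H.map_comp, R.H.map_comp, hf, ← Category.assoc, ← Category.assoc, Gr.natural]

lemma one_mem_jI {M : C} (a : G →* End M) (n : ℤ) :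
    (1 : MonoidAlgebra ℚ G) ∈ jI Gr a n ↔ Kun Gr n M := by
  rw [mem_jI, map_one]
  have : R.H.map ((1 : End M) : M ⟶ M) = 𝟙 _ := R.H.map_id _
  rw [this, Category.comp_id]
  rfl

lemma quot_iff' {M : C} (a : G →* End M) {H : Subgroup G} {T : C} (hT : IsQuot a H T) (n : ℤ) :
    Kun Gr n T ↔ nA H ∈ jI Gr a n := by
  have hch := R_charZero R
  obtain ⟨i, r, h1, h2⟩ := hT
  constructor
  · rintro ⟨f, hf⟩
    refine ⟨(Nat.card H : ℚ) • (r ≫ f ≫ i), ?_⟩
    rw [R_smul, R.H.map_comp, R.H.map_comp, hf, act_nA, R_smul, ← Gr.natural, ← Category.assoc,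
      ← R.H.map_comp, h2, Gr.natural, Linear.comp_smul]
  · rintro ⟨f, hf⟩
    obtain ⟨f', hf'⟩ : ∃ f' : M ⟶ M, R.H.map f' = Gr.P n M ≫ R.H.map (avg a H) := by
      refine ⟨(Nat.card H : ℚ)⁻¹ • f, ?_⟩
      rw [avg_eq, R_smul, R_smul, hf, Linear.comp_smul]
    refine ⟨i ≫ f' ≫ r, ?_⟩
    have h3 : i ≫ avg a H ≫ r = 𝟙 T := by
      rw [← h2, Category.assoc, h1, Category.comp_id, h1]
    have h4 : R.H.map i ≫ R.H.map (avg a H) ≫ R.H.map r = 𝟙 _ := by
      rw [← R.H.map_comp, ← R.H.map_comp, h3, R.H.map_id]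
    rw [R.H.map_comp, R.H.map_comp, hf', Category.assoc, ← Category.assoc (R.H.map i),
      Gr.natural, Category.assoc, h4, Category.comp_id]

lemma qkun_iff {M : C} (a : G →* End M) (H : Subgroup G) (n : ℤ) :
    QKun Gr a H n ↔ nA H ∈ jI Gr a n := by
  constructor
  · rintro ⟨T, hT, h⟩
    exact (quot_iff' Gr a hT n).1 h
  · intro h
    have hid : avg a H ≫ avg a H = avg a H := by
      rw [avg_eq, Linear.smul_comp, Linear.comp_smul, ← act_mul, nA_mul_nA, map_smul]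
      change (Nat.card H : ℚ)⁻¹ • (Nat.card H : ℚ)⁻¹ • (Nat.card H : ℚ) •
        (act a (nA H) : M ⟶ M) = _
      rw [smul_smul (Nat.card H : ℚ)⁻¹ (Nat.card H : ℚ), inv_mul_cancel₀ (card_ne H), one_smul]
    obtain ⟨T, i, r, h1, h2⟩ := IsIdempotentComplete.idempotents_split M (avg a H) hid
    have hT : IsQuot a H T := ⟨i, r, h1, h2⟩
    exact ⟨T, hT, (quot_iff' Gr a hT n).2 h⟩

end Pool.Agent.Zk74.KC
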