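import Pool.Agent.Zk74.KC.Parts

/-!
# Künneth components of isotrivial products: representations which occur
-/

set_option autoImplicit false
set_option linter.unusedSectionVars false
set_option backward.isDefEq.respectTransparency false
set_option backward.defeqAttrib.useBackward true

open CategoryTheory Limits MonoidalCategory
open Pool.Agent.Y112.SR Pool.Agent.Y112.KD
open Pool.Agent.X252.GA Pool.Agent.Zk74.KG

namespace Pool.Agent.Zk74.KC

universe v u w

variable {C : Type u} [Category.{v} C] [Preadditive C] [Linear ℚ C] [MonoidalCategory C]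
  [MonoidalPreadditive C] [MonoidalLinear ℚ C] [SymmetricCategory C] [RightRigidCategory C]
  [IsIdempotentComplete C] [HasBinaryBiproducts C] {K : Type w} [Field K]
  {R : SuperRealisation C K} (Gr : Grading R) {G : Type} [Group G] [Fintype G]

variable (R) in
/-- The action of the group ring on the realisation. -/
noncomputable def theta {M : C} (a : G →* End M) : MonoidAlgebra ℚ G →+* Module.End K (R.H.obj M) where
  toFun x := (R.H.map (act a x : M ⟶ M)).hom
  map_one' := by
    rw [map_one, show R.H.map ((1 : End M) : M ⟶ M) = 𝟙 _ from R.H.map_id _]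
    rfl
  map_mul' x y := by
    rw [act_mul, R.H.map_comp]
    rfl
  map_zero' := by
    rw [map_zero, show R.H.map ((0 : End M) : M ⟶ M) = 0 from R.H.map_zero _ _]
    rfl
  map_add' x y := by
    rw [map_add, show R.H.map ((act a x + act a y : End M) : M ⟶ M) =
      R.H.map (act a x : M ⟶ M) + R.H.map (act a y : M ⟶ M) from R.H.map_add]
    rfl

lemma theta_apply {M : C} (a : G →* End M) (x : MonoidAlgebra ℚ G) (m : R.H.obj M) :
    theta R a x m = (R.H.map (act a x : M ⟶ M)).hom m := rfl

lemma theta_P {M : C} (a : G →* End M) (x : MonoidAlgebra ℚ G) {n : ℤ} {m : R.H.obj M}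
    (h : (Gr.P n M).hom m = m) : (Gr.P n M).hom (theta R a x m) = theta R a x m := by
  have h1 := congrArg (fun z => z.hom m) (Gr.natural n (act a x : M ⟶ M))
  simp only [ModuleCat.hom_comp, LinearMap.comp_apply] at h1
  rw [theta_apply, h1, h]

/-- The simple submodules of the quotient occur in the realisation. -/
lemma occurs_of_ann {M : C} (a : G →* End M) (S : Set ℤ) (I : Ideal (MonoidAlgebra ℚ G))
    (hI : ∀ x ∈ I, ∀ y, x * y ∈ I)
    (hann : ∀ x : MonoidAlgebra ℚ G,
      (∀ n, (∃ j ∈ S, (Gr.P j M).hom n = n) → theta R a x n = 0) → x ∈ I)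
    (U : Submodule (MonoidAlgebra ℚ G) (MonoidAlgebra ℚ G ⧸ I))
    (hS : IsSimpleModule (MonoidAlgebra ℚ G) U) : Occurs Gr a S (repOf (G := G) U) := by
  let _ : Module (MonoidAlgebra ℚ G) (R.H.obj M) := Module.compHom (R.H.obj M) (theta R a)
  have hsm : ∀ (x : MonoidAlgebra ℚ G) (n : R.H.obj M), x • n = theta R a x n := fun _ _ => rfl
  obtain ⟨n, ⟨j, hj, hn⟩, f, hf, s, hs⟩ :=
    exists_hom I hI U {n : R.H.obj M | ∃ j ∈ S, (Gr.P j M).hom n = n} hann
  refine ⟨j, hj, f.toAddMonoidHom, ?_, ?_, s, hs⟩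
  · intro v
    obtain ⟨x, hx⟩ := hf v
    change (Gr.P j M).hom (f v) = f v
    rw [hx, hsm]
    exact theta_P Gr a x hn
  · intro g v
    change f (repOf U g v) = (R.H.map (a g : M ⟶ M)).hom (f v)
    rw [repOf_apply, map_smul, hsm, theta_apply, act_single, one_smul]

/-- An equivariant additive map is linear over the group ring. -/
lemma equi {N : C} (b : G →* End N) {V : Type} [AddCommGroup V] [Module ℚ V]
    [Module (MonoidAlgebra ℚ G) V] [IsScalarTower ℚ (MonoidAlgebra ℚ G) V]
    (f : V →+ R.H.obj N)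
    (h : ∀ g v, f (repOf (G := G) V g v) = (R.H.map (b g : N ⟶ N)).hom (f v))
    (x : MonoidAlgebra ℚ G) (v : V) : f (x • v) = theta R b x (f v) := by
  have hch := R_charZero R
  induction x using MonoidAlgebra.induction_linear with
  | zero => rw [zero_smul, map_zero, map_zero, LinearMap.zero_apply]
  | add y z hy hz => rw [add_smul, map_add, map_add, LinearMap.add_apply, hy, hz]
  | single g r =>
    have h1 : (MonoidAlgebra.single g r : MonoidAlgebra ℚ G) =
        r • MonoidAlgebra.single g (1 : ℚ) := by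
      rw [MonoidAlgebra.smul_single, smul_eq_mul, mul_one]
    have h2 : f ((MonoidAlgebra.single g (1 : ℚ) : MonoidAlgebra ℚ G) • v) =
        (R.H.map (b g : N ⟶ N)).hom (f v) := h g v
    rw [theta_apply, act_single, R_smul, h1, smul_assoc]
    have h3 := map_ratCast_smul f ℚ K r ((MonoidAlgebra.single g (1 : ℚ) : MonoidAlgebra ℚ G) • v)
    rw [Rat.cast_id] at h3
    rw [h3, h2]
    rfl

theorem occ_main (hU : UnitQ C) {M N T : C} (a : G →* End M) (b : G →* End N)
    (hT : IsQuot (diag a b) ⊤ T) (d : ℤ) (J : Set ℤ) (hJ : ∀ j ∈ J, Kun Gr (d + j) T ∧ Kun Gr j N)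
    (H : Subgroup G)
    (hO : ∀ (V : Type) [AddCommGroup V] [Module ℚ V] (ρ : G →* Module.End ℚ V), Irred ρ →
      Occurs Gr a {d} ρ → Occurs Gr a {d}ᶜ ρ → (∃ v : V, v ≠ 0 ∧ ∀ h ∈ H, ρ h v = v) →
        Occurs Gr b J ρ) : QKun Gr a H d := by
  rw [qkun_iff]
  refine mem_of_dominatedOn (H := H) (D := fun e : Empty => e.elim)
    (fun V _ _ ρ => Occurs Gr a {d} ρ ∧ Occurs Gr a {d}ᶜ ρ ∧ ¬ Occurs Gr b J ρ) ?_ _
    (jI_right Gr a d) (fun e => e.elim) ?_
  · intro V _ _ ρ hρ hQ hv
    exact absurd (hO V ρ hρ hQ.1 hQ.2.1 hv) hQ.2.2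
  · intro U hU'
    refine ⟨?_, ?_, ?_⟩
    · refine occurs_of_ann Gr a {d} _ (jI_right Gr a d) (fun x hx => ?_) U hU'
      refine ⟨0, ?_⟩
      rw [R.H.map_zero]
      symm
      refine ModuleCat.hom_ext (LinearMap.ext fun m => ?_)
      rw [ModuleCat.hom_comp, LinearMap.comp_apply]
      refine hx _ ⟨d, rfl, ?_⟩
      exact congrArg (fun z => z.hom m) (Gr.idem d M)
    · refine occurs_of_ann Gr a {d}ᶜ _ (jI_right Gr a d) (fun x hx => ?_) U hU'
      refine ⟨act a x, ?_⟩
      classical
      obtain ⟨S, hS⟩ := Gr.total M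
      have h1 : ∀ n ≠ d, Gr.P n M ≫ R.H.map (act a x : M ⟶ M) = 0 := by
        intro n hn
        refine ModuleCat.hom_ext (LinearMap.ext fun m => ?_)
        rw [ModuleCat.hom_comp, LinearMap.comp_apply]
        refine hx _ ⟨n, hn, ?_⟩
        exact congrArg (fun z => z.hom m) (Gr.idem n M)
      calc R.H.map (act a x : M ⟶ M) = (∑ n ∈ S, Gr.P n M) ≫ R.H.map (act a x : M ⟶ M) := by
            rw [hS, Category.id_comp]
        _ = ∑ n ∈ S, if n = d then Gr.P d M ≫ R.H.map (act a x : M ⟶ M) else 0 := by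
            rw [Preadditive.sum_comp]
            refine Finset.sum_congr rfl fun n _ => ?_
            split_ifs with h
            · rw [h]
            · exact h1 n h
        _ = Gr.P d M ≫ R.H.map (act a x : M ⟶ M) := by
            rw [Finset.sum_ite_eq']
            split_ifs with h
            · rfl
            · rw [total_of Gr M hS h, zero_comp]
    · rintro ⟨j, hj, f, hf1, hf2, s, hs⟩
      apply hs
      obtain ⟨e, he, hi, hex, -, hd⟩ := exists_central (jI Gr a d) (jI_right Gr a d)
      have h1 := sub_mem Gr hU a b hT (hJ j hj).1 (hJ j hj).2 hi hex hd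
      have h2 : e • s = 0 := by
        apply Subtype.ext
        rw [Submodule.coe_smul, Submodule.coe_zero]
        obtain ⟨y, hy⟩ := Submodule.Quotient.mk_surjective _ s.1
        rw [← hy, ← Submodule.Quotient.mk_smul, Submodule.Quotient.mk_eq_zero]
        exact jI_right Gr a d e he y
      have h3 := equi b f hf2 e s
      rw [h2, map_zero, theta_apply] at h3
      have h4 := congrArg (fun z => z.hom (f s)) h1
      simp only [ModuleCat.hom_comp, LinearMap.comp_apply, hf1] at h4
      rw [← h4, ← h3]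

end Pool.Agent.Zk74.KC
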