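import Pool.Agent.Zk74.KC.Descent
import Pool.Agent.Zk74.KC.Alg

/-!
# Künneth components of isotrivial products: the exact criterion
-/

set_option autoImplicit false
set_option linter.unusedSectionVars false
set_option backward.isDefEq.respectTransparency false
set_option backward.defeqAttrib.useBackward true

open CategoryTheory Limits MonoidalCategory
open Pool.Agent.Y112.SR Pool.Agent.Y112.KD
open Pool.Agent.X252.GA Pool.Agent.Zk74.KG
open Functor.LaxMonoidal Functor.OplaxMonoidal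

namespace Pool.Agent.Zk74.KC

universe v u w

variable {C : Type u} [Category.{v} C] [Preadditive C] [Linear ℚ C] [MonoidalCategory C]
  [MonoidalPreadditive C] [MonoidalLinear ℚ C] [SymmetricCategory C] [RightRigidCategory C]
  [IsIdempotentComplete C] [HasBinaryBiproducts C] {K : Type w} [Field K]
  {R : SuperRealisation C K} (Gr : Grading R) {G : Type} [Group G] [Fintype G]

lemma act_eq {M : C} (a : G →* End M) (z : MonoidAlgebra ℚ G) :
    (act a z : M ⟶ M) = ∑ g, z.coeff g • (a g : M ⟶ M) := by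
  classical
  have h : z = ∑ g, MonoidAlgebra.single g (z.coeff g) := by
    apply ext'
    intro g
    rw [coeff_sum']
    simp [MonoidAlgebra.coeff_single, Finsupp.single_apply]
  conv_lhs => rw [h]
  exact act_sum a fun g => z.coeff g

lemma exists_coeff (c : G → ℚ) : ∃ z : MonoidAlgebra ℚ G, ∀ g, z.coeff g = c g := by
  classical
  refine ⟨∑ g, MonoidAlgebra.single g (c g), fun g => ?_⟩
  rw [coeff_sum']
  simp [MonoidAlgebra.coeff_single, Finsupp.single_apply]

/-- The annihilator of the degree `j`. -/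
noncomputable def annI {N : C} (b : G →* End N) (j : ℤ) : Ideal (MonoidAlgebra ℚ G) where
  carrier := {x | Gr.P j N ≫ R.H.map (act b x : N ⟶ N) = 0}
  add_mem' := by
    intro x y hx hy
    have : R.H.map ((act b (x + y) : End N) : N ⟶ N) =
        R.H.map (act b x : N ⟶ N) + R.H.map (act b y : N ⟶ N) := by
      rw [map_add]
      exact R.H.map_add
    change Gr.P j N ≫ R.H.map ((act b (x + y) : End N) : N ⟶ N) = 0
    rw [this, Preadditive.comp_add]
    rw [show Gr.P j N ≫ R.H.map (act b x : N ⟶ N) = 0 from hx,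
      show Gr.P j N ≫ R.H.map (act b y : N ⟶ N) = 0 from hy, add_zero]
  zero_mem' := by
    change Gr.P j N ≫ R.H.map ((act b 0 : End N) : N ⟶ N) = 0
    rw [map_zero]
    have : R.H.map ((0 : End N) : N ⟶ N) = 0 := R.H.map_zero _ _
    rw [this, comp_zero]
  smul_mem' := by
    intro x y hy
    change Gr.P j N ≫ R.H.map ((act b (x * y) : End N) : N ⟶ N) = 0
    rw [act_mul, R.H.map_comp, ← Category.assoc,
      show Gr.P j N ≫ R.H.map (act b y : N ⟶ N) = 0 from hy, zero_comp]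

lemma mem_annI {N : C} (b : G →* End N) (j : ℤ) (x : MonoidAlgebra ℚ G) :
    x ∈ annI Gr b j ↔ Gr.P j N ≫ R.H.map (act b x : N ⟶ N) = 0 := Iff.rfl

lemma annI_right {N : C} (b : G →* End N) (j : ℤ) :
    ∀ x ∈ annI Gr b j, ∀ y, x * y ∈ annI Gr b j := by
  intro x hx y
  rw [mem_annI] at hx ⊢
  rw [act_mul, R.H.map_comp, ← Category.assoc, ← Gr.natural, Category.assoc, hx, comp_zero]

lemma sub_mem_annI {N : C} (b : G →* End N) (j : ℤ) (x : MonoidAlgebra ℚ G) :
    1 - x ∈ annI Gr b j ↔ Gr.P j N ≫ R.H.map (act b x : N ⟶ N) = Gr.P j N := by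
  rw [mem_annI]
  have : R.H.map ((act b (1 - x) : End N) : N ⟶ N) =
      𝟙 _ - R.H.map (act b x : N ⟶ N) := by
    rw [map_sub, map_one]
    exact R.H.map_sub.trans (by rw [show R.H.map ((1 : End N) : N ⟶ N) = 𝟙 _ from R.H.map_id _])
  rw [this, Preadditive.comp_sub, Category.comp_id, sub_eq_zero, eq_comm]

/-- An algebraic Künneth component of the isotrivial product: the complement of the ideal does not
occur in `N`. -/
theorem sub_mem (hU : UnitQ C) {M N T : C} (a : G →* End M) (b : G →* End N)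
    (hT : IsQuot (diag a b) ⊤ T) {d j : ℤ} (h1 : Kun Gr (d + j) T) (h2 : Kun Gr j N)
    {e : MonoidAlgebra ℚ G} (hi : IsIdempotentElem e) (hex : ∀ x ∈ jI Gr a d, e * x = x)
    (hd : dag e = e) : Gr.P j N ≫ R.H.map (act b e : N ⟶ N) = Gr.P j N := by
  have hch := R_charZero R
  have hfin := R.finite N
  rw [← sub_mem_annI, mem_annI]
  obtain ⟨f, hf⟩ := h2
  have h3 : trq hU N ((act b (1 - e) : N ⟶ N) ≫ f : N ⟶ N) = 0 := by
    have h4 := hex _ (key Gr hU a b hT h1 hf (𝟙 N))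
    have h5 := coeff_uel hU b (f ≫ 𝟙 N) (1 - e)
    rw [sub_mul, one_mul, h4, sub_self, dag_sub, dag_one, hd, Category.comp_id] at h5
    rw [← h5]
    simp
  have h6 := real_tr R hU ((act b (1 - e) : N ⟶ N) ≫ f)
  rw [h3, R.H.map_comp, hf, Category.assoc, Gr.parity, Rat.cast_zero] at h6
  obtain ⟨z, hz⟩ : ∃ z, z = R.H.map (act b (1 - e) : N ⟶ N) ≫ Gr.P j N := ⟨_, rfl⟩
  have h7 : z ≫ z = z := by
    have h8 : R.H.map (act b (1 - e) : N ⟶ N) ≫ R.H.map (act b (1 - e) : N ⟶ N) =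
        R.H.map (act b (1 - e) : N ⟶ N) := by
      rw [← R.H.map_comp, ← act_mul, hi.one_sub.eq]
    rw [hz, Category.assoc, ← Category.assoc (Gr.P j N), ← Gr.natural, Category.assoc, Gr.idem,
      ← Category.assoc, h8]
  have h8 : LinearMap.trace K (R.H.obj N) z.hom = 0 := by
    have h9 : (R.H.map (act b (1 - e) : N ⟶ N) ≫ ((j.negOnePow : ℤ) • Gr.P j N)) =
        (j.negOnePow : ℤ) • z := by
      rw [hz, Preadditive.comp_zsmul]
    rw [h9] at h6
    rcases Int.even_or_odd j with hj | hj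
    · rw [Int.negOnePow_even j hj] at h6
      simpa using h6.symm
    · rw [Int.negOnePow_odd j hj] at h6
      have h10 : (((-1 : ℤˣ) : ℤ) • z).hom = -z.hom := by simp
      rw [h10, map_neg] at h6
      exact neg_eq_zero.1 h6.symm
  have h9 : IsIdempotentElem z.hom := by
    have := congrArg ModuleCat.Hom.hom h7
    rw [ModuleCat.hom_comp] at this
    exact this
  have h10 := LinearMap.IsIdempotentElem.eq_zero_of_trace_eq_zero h9 h8
  rw [← Gr.natural, ← hz]
  exact ModuleCat.hom_ext h10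

/-- The invariants of the diagonal action. -/
lemma quot_move {M N T : C} (a : G →* End M) (b : G →* End N) {i : T ⟶ M ⊗ N} {r : M ⊗ N ⟶ T}
    (h1 : i ≫ r = 𝟙 T) (h2 : r ≫ i = avg (diag a b) ⊤) (z : MonoidAlgebra ℚ G) :
    i ≫ (act a z : M ⟶ M) ▷ N = i ≫ M ◁ (act b (dag z) : N ⟶ N) := by
  classical
  have h3 : i = i ≫ avg (diag a b) ⊤ := by rw [← h2, ← Category.assoc, h1, Category.id_comp]
  have h4 : ∀ g, i ≫ ((a g : M ⟶ M) ⊗ₘ (b g : N ⟶ N)) = i := by
    intro g
    have h5 : avg (diag a b) ⊤ ≫ ((a g : M ⟶ M) ⊗ₘ (b g : N ⟶ N)) = avg (diag a b) ⊤ := by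
      unfold avg
      rw [Linear.smul_comp, Preadditive.sum_comp]
      congr 1
      refine Finset.sum_bij (fun h _ => g * h) ?_ ?_ ?_ ?_
      · intro h _
        simp
      · intro h _ h' _ hh
        exact mul_left_cancel hh
      · intro h _
        exact ⟨g⁻¹ * h, by simp, by simp⟩
      · intro h _
        have : diag a b (g * h) = diag a b g * diag a b h := map_mul _ _ _
        rw [this, End.mul_def]
        rfl
    rw [h3, Category.assoc, h5]
  have h5 : ∀ g, i ≫ (a g : M ⟶ M) ▷ N = i ≫ M ◁ (b g⁻¹ : N ⟶ N) := by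
    intro g
    have h6 : (a g : M ⟶ M) ▷ N = ((a g : M ⟶ M) ⊗ₘ (b g : N ⟶ N)) ≫ M ◁ (b g⁻¹ : N ⟶ N) := by
      have h7 : (b g : N ⟶ N) ≫ (b g⁻¹ : N ⟶ N) = 𝟙 N := by
        have : b (g⁻¹ * g) = b g⁻¹ * b g := map_mul _ _ _
        rw [inv_mul_cancel, map_one, End.mul_def] at this
        exact this.symm
      rw [MonoidalCategory.tensorHom_def, Category.assoc, ← MonoidalCategory.whiskerLeft_comp, h7]
      simp
    rw [h6, ← Category.assoc, h4]
  rw [act_eq, act_eq, CategoryTheory.sum_whiskerRight, CategoryTheory.whiskerLeft_sum,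
    Preadditive.comp_sum, Preadditive.comp_sum]
  refine Fintype.sum_equiv (Equiv.inv G) _ _ fun g => ?_
  rw [Equiv.inv_apply, coeff_dag, inv_inv, MonoidalLinear.smul_whiskerRight,
    MonoidalLinear.whiskerLeft_smul, Linear.comp_smul, Linear.comp_smul, h5]

lemma partAlg_iff {M N : C} (a : G →* End M) (b : G →* End N) (i j : ℤ) :
    PartAlg Gr a b i j ↔ ∃ z ∈ jI Gr a i, 1 - z ∈ annI Gr b j := by
  constructor
  · rintro ⟨c, h1, f, hf⟩
    obtain ⟨z, hz⟩ := exists_coeff c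
    refine ⟨z, ⟨f, ?_⟩, ?_⟩
    · rw [act_eq, hf]
      simp only [hz]
    · rw [sub_mem_annI, act_eq]
      simp only [hz]
      exact h1
  · rintro ⟨z, ⟨f, hf⟩, h1⟩
    rw [sub_mem_annI, act_eq] at h1
    rw [act_eq] at hf
    exact ⟨fun g => z.coeff g, h1, f, hf⟩

theorem part_of (hU : UnitQ C) {M N T : C} (a : G →* End M) (b : G →* End N)
    (hT : IsQuot (diag a b) ⊤ T) {d j : ℤ} (h1 : Kun Gr (d + j) T) (h2 : Kun Gr j N) :
    PartAlg Gr a b d j := by
  obtain ⟨e, he, hi, hex, -, hd⟩ := exists_central (jI Gr a d) (jI_right Gr a d)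
  rw [partAlg_iff]
  exact ⟨e, he, (sub_mem_annI Gr b j e).2 (sub_mem Gr hU a b hT h1 h2 hi hex hd)⟩

theorem of_parts {M N T : C} (a : G →* End M) (b : G →* End N)
    (hT : IsQuot (diag a b) ⊤ T) (hN : ∀ j, Kun Gr j N) {n : ℤ}
    (h : ∀ j, PartAlg Gr a b (n - j) j) : Kun Gr n T := by
  classical
  obtain ⟨i, r, h1, h2⟩ := hT
  choose f hf using hN
  choose z hz hz' using fun j => (partAlg_iff Gr a b (n - j) j).1 (h j)
  choose F hF using hz
  obtain ⟨S, hS⟩ := Gr.total N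
  refine ⟨∑ j ∈ S, i ≫ (F j ⊗ₘ f j) ≫ r, ?_⟩
  have h3 : ∀ j, R.H.map (i ≫ (F j ⊗ₘ f j) ≫ r) =
      R.H.map i ≫ δ R.H M N ≫ (𝟙 _ ⊗ₘ Gr.P j N) ≫ μ R.H M N ≫ Gr.P n (M ⊗ N) ≫ R.H.map r := by
    intro j
    have e0 : ∀ {U V : ModuleCat.{w} K} (A P' : U ⟶ U) (Q : V ⟶ V),
        ((A ≫ P') ⊗ₘ Q) = A ▷ V ≫ (P' ⊗ₘ Q) := by
      intro U V A P' Q
      rw [← tensorHom_id, tensorHom_comp_tensorHom, Category.id_comp]
    have e1 : R.H.map (F j ⊗ₘ f j) =
        R.H.map ((act a (z j) : M ⟶ M) ▷ N) ≫ δ R.H M N ≫ (Gr.P (n - j) M ⊗ₘ Gr.P j N) ≫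
          μ R.H M N := by
      rw [Functor.Monoidal.map_tensor, hF, hf, Functor.Monoidal.map_whiskerRight]
      simp only [Category.assoc, Functor.Monoidal.μ_δ_assoc]
      rw [← Gr.natural, e0]
      simp only [Category.assoc]
    have e2 : Gr.P j N ≫ R.H.map (act b (dag (z j)) : N ⟶ N) = Gr.P j N := by
      rw [← sub_mem_annI]
      have := dag_mem (annI Gr b j) (annI_right Gr b j) (hz' j)
      rwa [dag_sub, dag_one] at this
    have e3 : ∀ {U V : ModuleCat.{w} K} (B Q : V ⟶ V) (P' : U ⟶ U),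
        U ◁ B ≫ (P' ⊗ₘ Q) = (P' ⊗ₘ (B ≫ Q)) := by
      intro U V B Q P'
      rw [← id_tensorHom, tensorHom_comp_tensorHom, Category.id_comp]
    have e4 : (Gr.P (n - j) M ⊗ₘ Gr.P j N) ≫ μ R.H M N =
        (𝟙 (R.H.obj M) ⊗ₘ Gr.P j N) ≫ μ R.H M N ≫ Gr.P n (M ⊗ N) := by
      have := tens Gr (M := M) (N := N) (n - j) j
      rw [sub_add_cancel] at this
      exact this.symm
    rw [R.H.map_comp, R.H.map_comp, e1]
    simp only [Category.assoc]
    rw [← Category.assoc (R.H.map i), ← R.H.map_comp, quot_move a b h1 h2 (z j), R.H.map_comp,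
      Functor.Monoidal.map_whiskerLeft]
    simp only [Category.assoc, Functor.Monoidal.μ_δ_assoc]
    rw [← Category.assoc (R.H.obj M ◁ _), e3, Gr.natural, e2, ← Category.assoc (_ ⊗ₘ _), e4]
    simp only [Category.assoc]
  rw [R.H.map_sum, Finset.sum_congr rfl fun j _ => h3 j, ← Preadditive.comp_sum,
    ← Preadditive.comp_sum, ← Preadditive.sum_comp, ← tensor_sum, hS, id_tensorHom_id,
    Category.id_comp, Functor.Monoidal.δ_μ_assoc, ← Category.assoc, Gr.natural, Category.assoc,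
    ← R.H.map_comp, h1, R.H.map_id, Category.comp_id]

end Pool.Agent.Zk74.KC
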